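import Pool.Agent.W774.TL.Stm

/-! Termwise differentiation (part DER of project TL). -/

set_option autoImplicit false

open Set Filter Topology Pool.Agent.W774.TL

namespace Pool.Agent.W740.TL

theorem E_pos (j : ℤ) (x p t : ℝ) : 0 < E j x p t := Real.exp_pos _

theorem one_le_w (j : ℤ) : (1 : ℝ) ≤ (3 : ℝ) ^ j.natAbs := one_le_pow₀ (by norm_num)

theorem abs_le_w (j : ℤ) : |(j : ℝ)| ≤ (3 : ℝ) ^ j.natAbs := by
  have h1 : |(j : ℝ)| = (j.natAbs : ℝ) := by
    rw [Nat.cast_natAbs, Int.cast_abs]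
  rw [h1]
  have h2 : j.natAbs < 3 ^ j.natAbs := Nat.lt_pow_self (by norm_num)
  exact_mod_cast h2.le

theorem pow_bound (a : ℕ) (j : ℤ) (x p t : ℝ) :
    ‖(j : ℝ) ^ a * E j x p t‖ ≤ ((3 : ℝ) ^ j.natAbs) ^ a * E j x p t := by
  rw [norm_mul, norm_pow, Real.norm_eq_abs, Real.norm_eq_abs, abs_of_pos (E_pos j x p t)]
  exact mul_le_mul_of_nonneg_right (pow_le_pow_left₀ (abs_nonneg _) (abs_le_w j) a)
    (E_pos j x p t).le

theorem hasDerivAt_E_p (j : ℤ) (x p t : ℝ) :
    HasDerivAt (fun s => E j x s t) ((j : ℝ) * E j x p t) p := by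
  have h1 : HasDerivAt (fun s : ℝ => (j : ℝ) * s - V j x t) ((j : ℝ) * 1) p :=
    ((hasDerivAt_id p).const_mul (j : ℝ)).sub_const _
  have h2 := h1.exp
  rw [mul_one] at h2
  unfold E
  rw [mul_comm]
  exact h2

theorem hasDerivAt_S (u : ℝ) : HasDerivAt S (Co u) u := by
  have h1 : HasDerivAt (fun s : ℝ => 2 * Real.pi * s) (2 * Real.pi * 1) u :=
    (hasDerivAt_id u).const_mul (2 * Real.pi)
  have h2 := (h1.sin).div_const (2 * Real.pi)
  have h3 : Real.cos (2 * Real.pi * u) * (2 * Real.pi * 1) / (2 * Real.pi) = Co u := by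
    unfold Co
    have hpi : Real.pi ≠ 0 := Real.pi_ne_zero
    field_simp
  rw [h3] at h2
  exact h2

theorem hasDerivAt_E_x (j : ℤ) (x p t : ℝ) :
    HasDerivAt (fun s => E j s p t) (-((3 : ℝ) ^ j.natAbs * Co (x - j * t) * E j x p t)) x := by
  have h0 : HasDerivAt (fun s : ℝ => s - j * t) 1 x := (hasDerivAt_id x).sub_const _
  have h1 : HasDerivAt (fun s : ℝ => S (s - j * t)) (Co (x - j * t) * 1) x := by
    have h := HasDerivAt.comp x (h₂ := S) (hasDerivAt_S (x - j * t)) h0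
    exact h
  have h2 : HasDerivAt (fun s : ℝ => (j : ℝ) * p - V j s t)
      (-((3 : ℝ) ^ j.natAbs * (Co (x - j * t) * 1))) x :=
    ((h1.const_add (3 / 4)).const_mul ((3 : ℝ) ^ j.natAbs)).const_sub _
  have h3 := h2.exp
  have h4 : Real.exp ((j : ℝ) * p - V j x t) * (-((3 : ℝ) ^ j.natAbs * (Co (x - j * t) * 1))) =
      -((3 : ℝ) ^ j.natAbs * Co (x - j * t) * E j x p t) := by
    unfold E
    ring
  rw [h4] at h3
  exact h3

theorem abs_Co (u : ℝ) : |Co u| ≤ 1 := Real.abs_cos_le_one _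

theorem sum_pow (h1 : P_SUM) (a : ℕ) (x p t : ℝ) :
    Summable (fun j : ℤ => (j : ℝ) ^ a * E j x p t) := by
  obtain ⟨u, hu, hb⟩ := h1 a |p|
  exact Summable.of_norm_bounded hu fun j => (pow_bound a j x p t).trans (hb j x p t le_rfl)

theorem pder (h1 : P_SUM) (a : ℕ) (x p t : ℝ) :
    HasDerivAt (fun s => ∑' j : ℤ, (j : ℝ) ^ a * E j x s t)
      (∑' j : ℤ, (j : ℝ) ^ (a + 1) * E j x p t) p := by
  obtain ⟨u, hu, hb⟩ := h1 (a + 1) (|p| + 1)
  have hp : p ∈ Ioo (p - 1) (p + 1) := ⟨by linarith, by linarith⟩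
  refine hasDerivAt_tsum_of_isPreconnected (g := fun (j : ℤ) s => (j : ℝ) ^ a * E j x s t)
    (g' := fun (j : ℤ) s => (j : ℝ) ^ (a + 1) * E j x s t) hu isOpen_Ioo isPreconnected_Ioo
    (fun j s _ => ?_) (fun j s hs => ?_) hp (sum_pow h1 a x p t) hp
  · have h2 := (hasDerivAt_E_p j x s t).const_mul ((j : ℝ) ^ a)
    have h3 : (j : ℝ) ^ a * ((j : ℝ) * E j x s t) = (j : ℝ) ^ (a + 1) * E j x s t := by ring
    rw [h3] at h2
    exact h2
  · refine (pow_bound (a + 1) j x s t).trans (hb j x s t ?_)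
    have h4 : |s - p| ≤ 1 := by
      rw [abs_le]
      exact ⟨by linarith [hs.1], by linarith [hs.2]⟩
    calc |s| = |p + (s - p)| := by ring_nf
      _ ≤ |p| + |s - p| := abs_add_le _ _
      _ ≤ |p| + 1 := by linarith

theorem xder (h1 : P_SUM) (x p t : ℝ) :
    HasDerivAt (fun s => ∑' j : ℤ, E j s p t)
      (-∑' j : ℤ, (3 : ℝ) ^ j.natAbs * Co (x - j * t) * E j x p t) x := by
  obtain ⟨u, hu, hb⟩ := h1 1 |p|
  rw [← tsum_neg]
  have h0 : Summable (fun j : ℤ => E j x p t) := by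
    have h := sum_pow h1 0 x p t
    simp only [pow_zero, one_mul] at h
    exact h
  refine hasDerivAt_tsum_of_isPreconnected (g := fun (j : ℤ) s => E j s p t)
    (g' := fun (j : ℤ) s => -((3 : ℝ) ^ j.natAbs * Co (s - j * t) * E j s p t)) hu isOpen_univ
    isPreconnected_univ (fun j s _ => hasDerivAt_E_x j s p t) (fun j s _ => ?_) (mem_univ x) h0
    (mem_univ x)
  refine le_trans ?_ (hb j s p t le_rfl)
  have hw : (0 : ℝ) < (3 : ℝ) ^ j.natAbs := by positivity
  rw [norm_neg, norm_mul, norm_mul, Real.norm_eq_abs, Real.norm_eq_abs, Real.norm_eq_abs,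
    abs_of_pos (E_pos j s p t), abs_of_pos hw, pow_one]
  refine mul_le_mul_of_nonneg_right ?_ (E_pos j s p t).le
  exact mul_le_of_le_one_right hw.le (abs_Co _)

theorem der_thm (h1 : P_SUM) : P_DER := by
  intro x p t
  have h0 : Summable (fun j : ℤ => E j x p t) := by
    have h := sum_pow h1 0 x p t
    simp only [pow_zero, one_mul] at h
    exact h
  refine ⟨h0.tsum_pos (fun j => (E_pos j x p t).le) 0 (E_pos 0 x p t), ?_, xder h1 x p t, ?_⟩
  · have h := pder h1 0 x p t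
    simp only [pow_zero, one_mul, zero_add, pow_one] at h
    exact h
  · have h := pder h1 1 x p t
    simp only [pow_one] at h
    exact h

end Pool.Agent.W740.TL
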